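import Pool.Agent.Y749.AH.Main2

/-!
# Distant pairs of zeros see every coset of every lattice `s ℤ` with `s > 1/2`

Assume RH.  Let `s > 1/2` (or let `s > 0` be such that Montgomery's function has mass less than
`1 - η` near `1 / s`).  There are `ε > 0` and `R₀` such that for every real `a`, every `R ≥ R₀` and all
large `T`, and for all the cosets `b + s ℤ` simultaneously, at least `ε R N(T)` pairs `(i, j)` of
indices with a normalised difference `(γ_i - γ_j) log T / 2π` in `[a, a + R]` have distance at least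
`ε` to `b + s ℤ`.

The window may be at any distance `a`, far away from the range where the pair correlation is
understood.  For `s = 1/2` this would exclude the alternative hypothesis; the theorem shows that
`1/2` is the threshold of what is known, in every distant window.
-/

open Filter
open Complex (I)

namespace Pool.Agent.Results.MP_f0209c_nt.DistantPairs

/-- multiplicity of `s` as a zero of the Riemann zeta function (order of vanishing at `s`) -/
noncomputable def zmult (s : ℂ) : ℕ := analyticOrderNatAt riemannZeta s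

/-- the number of nontrivial zeros of `ζ` with ordinate in `(0, t]`, with multiplicity -/
noncomputable def NZ (t : ℝ) : ℕ :=
  ∑ᶠ s ∈ {s : ℂ | riemannZeta s = 0 ∧ 0 < s.re ∧ s.re < 1 ∧ 0 < s.im ∧ s.im ≤ t}, zmult s

/-- for `j ≥ 1`: the `j`-th positive ordinate `γ j` of a nontrivial zero of `ζ`, the ordinates being
listed in nondecreasing order and repeated according to multiplicity -/
noncomputable def γ (j : ℕ) : ℝ := sInf {t : ℝ | j ≤ NZ t}

/-- Montgomery's function `F(α, T)` (the sum is real) -/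
noncomputable def F (α T : ℝ) : ℝ :=
  (2 * Real.pi / (T * Real.log T) * ∑ i ∈ Finset.Icc 1 (NZ T), ∑ j ∈ Finset.Icc 1 (NZ T),
    (T : ℂ) ^ (I * α * (γ i - γ j)) * (4 / (4 + (γ i - γ j) ^ 2)) : ℂ).re

/-- the normalised differences `(γ_i - γ_j) log T / 2π` -/
noncomputable def x (T : ℝ) (i j : ℕ) : ℝ := (γ i - γ j) * Real.log T / (2 * Real.pi)

/-- the number of pairs `(i, j)`, `1 ≤ i, j ≤ N(T)`, whose normalised difference lies in
`[a, a + R]` and has distance at least `ε` to the coset `b + s ℤ` -/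
noncomputable def W (T a R b s ε : ℝ) : ℕ :=
  {p : ℕ × ℕ | (1 ≤ p.1 ∧ p.1 ≤ NZ T) ∧ (1 ≤ p.2 ∧ p.2 ≤ NZ T) ∧
    a ≤ x T p.1 p.2 ∧ x T p.1 p.2 ≤ a + R ∧ ∀ k : ℤ, ε ≤ |x T p.1 p.2 - b - k * s|}.ncard

/-- **Distant pairs see every coset.** -/
theorem result (hRH : RiemannHypothesis) (s : ℝ) (hs : 0 < s)
    (h : 1 / 2 < s ∨ ∃ δ η : ℝ, 0 < δ ∧ 0 < η ∧
      ∀ᶠ T in atTop, ∫ α in (1 / s - δ)..(1 / s + δ), F α T < 1 - η) :
    ∃ ε R0 : ℝ, 0 < ε ∧ 0 < R0 ∧ ∀ R a : ℝ, R0 ≤ R → ∀ᶠ T in atTop, ∀ b : ℝ,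
      ε * R * NZ T ≤ W T a R b s ε :=
  Pool.Agent.Y749.AH.M.distant hRH hs h

end Pool.Agent.Results.MP_f0209c_nt.DistantPairs
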