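import Pool.Agent.Y749.AH.Main2

/-!
# The lattices near which almost all normalised spacings can lie

Assume RH, and let `T → ∞` or let `T` run through any sequence of values.  Then either for no `s > 0`
almost all the normalised spacings `d_j`, `γ_j ≤ T`, are near `s ℤ`, or there is one `s₀ ≤ 1/2` such
that this happens exactly for the lattices `(s₀ / m) ℤ`, `m = 1, 2, 3, …`.
-/

open Filter
open Complex (I)

namespace Pool.Agent.Results.MP_f0209c_nt.LatticeStructure

/-- multiplicity of `s` as a zero of the Riemann zeta function (order of vanishing at `s`) -/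
noncomputable def zmult (s : ℂ) : ℕ := analyticOrderNatAt riemannZeta s

/-- the number of nontrivial zeros of `ζ` with ordinate in `(0, t]`, with multiplicity -/
noncomputable def NZ (t : ℝ) : ℕ :=
  ∑ᶠ s ∈ {s : ℂ | riemannZeta s = 0 ∧ 0 < s.re ∧ s.re < 1 ∧ 0 < s.im ∧ s.im ≤ t}, zmult s

/-- for `j ≥ 1`: the `j`-th positive ordinate `γ j` of a nontrivial zero of `ζ`, the ordinates being
listed in nondecreasing order and repeated according to multiplicity -/
noncomputable def γ (j : ℕ) : ℝ := sInf {t : ℝ | j ≤ NZ t}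

/-- the normalised spacings `d_j = γ_{j+1} log γ_{j+1} / 2π - γ_j log γ_j / 2π` -/
noncomputable def d (j : ℕ) : ℝ :=
  (γ (j + 1) * Real.log (γ (j + 1)) - γ j * Real.log (γ j)) / (2 * Real.pi)

/-- almost all spacings are near `s ℤ`, along the filter `l` of values of `T` -/
def Spacings (l : Filter ℝ) (s : ℝ) : Prop := ∀ ε η : ℝ, 0 < ε → 0 < η → ∀ᶠ T in l,
  ({j : ℕ | 1 ≤ j ∧ j ≤ NZ T ∧ ∀ k : ℤ, ε ≤ |d j - k * s|}.ncard : ℝ) ≤ η * NZ T

/-- **The structure of the lattices.** -/
theorem result (hRH : RiemannHypothesis) (l : Filter ℝ) (hl : l ≤ atTop) [l.NeBot] :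
    (∀ s : ℝ, 0 < s → ¬ Spacings l s) ∨
    ∃ s0 : ℝ, 0 < s0 ∧ s0 ≤ 1 / 2 ∧
      ∀ s : ℝ, 0 < s → (Spacings l s ↔ ∃ m : ℕ, 1 ≤ m ∧ s = s0 / m) :=
  Pool.Agent.Y749.AH.M.lattices hRH hl

end Pool.Agent.Results.MP_f0209c_nt.LatticeStructure
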