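import Pool.Agent.X112.GS.QPFin
import Pool.Agent.X112.GS.Nc

/-!
The normalised spacings of the zeros of zeta are not given, not even approximately and on a positive
proportion of the windows of bounded length, by a function of bounded variation along the orbit of a
rotation of the circle.  In particular the sequence of half-integers in the Alternative Hypothesis
could not be a coding of a rotation (for example Sturmian).  Unconditional.

Idea of the proof.  Let `f` have period `1` and variation at most `V`.  By Dirichlet's theorem `α` has
a rational approximation `p / Q` with `Q ≤ R`, `|Q α - p| ≤ 1 / R`.  If `Q` is large, then by the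
inequality of Denjoy and Koksma the sums of `f` over `Q` consecutive points of an orbit lie in an
interval of length `4 V`; by the central limit theorem of Selberg and Fujii for the sums of `Q`
consecutive spacings, the latter are spread over a range of order `√(log Q)`, so that they rarely lie
in a given interval of bounded length.  If `Q` is bounded, then `f (nα)` is nearly periodic with period
`Q` at most places, and the spacings satisfy no approximate linear recurrence on almost all windows.
-/

set_option autoImplicit false

open Filter

namespace Pool.Agent.Results.MP_f0209c_nt.RotationCodings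

/-- multiplicity of `s` as a zero of the Riemann zeta function (order of vanishing at `s`) -/
noncomputable def zmult (s : ℂ) : ℕ := analyticOrderNatAt riemannZeta s

/-- the number of nontrivial zeros of `ζ` with ordinate in `(0, t]`, with multiplicity -/
noncomputable def NZ (t : ℝ) : ℕ :=
  ∑ᶠ s ∈ {s : ℂ | riemannZeta s = 0 ∧ 0 < s.re ∧ s.re < 1 ∧ 0 < s.im ∧ s.im ≤ t}, zmult s

/-- for `n ≥ 1`: the `n`-th positive ordinate `γ n` of a nontrivial zero of `ζ`, the ordinates being
listed in nondecreasing order and repeated according to multiplicity -/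
noncomputable def γ (n : ℕ) : ℝ := sInf {t : ℝ | n ≤ NZ t}

/-- the normalised spacings `d_n = (γ_{n+1} log γ_{n+1} - γ_n log γ_n) / 2π` -/
noncomputable def d (n : ℕ) : ℝ :=
  γ (n + 1) * Real.log (γ (n + 1)) / (2 * Real.pi) - γ n * Real.log (γ n) / (2 * Real.pi)

/-- Unconditionally, with `γ n` the ordinates of all the nontrivial zeros in the upper half-plane: for
all `V ≥ 0` and `η > 0` there are `B` and `ε > 0` such that for all large `N`, for every real `α` and
every function `f` with period `1` and total variation at most `V` on `[0, 1]`, at most `η N` of the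
`n ≤ N` are such that `|d_{n+i} - f ((n + i) α)| < ε` for all `0 ≤ i < B`. -/
theorem result (V : ℝ) (hV : 0 ≤ V) (η : ℝ) (hη : 0 < η) :
    ∃ (B : ℕ) (ε : ℝ), 0 < ε ∧ ∀ᶠ N : ℕ in atTop, ∀ (α : ℝ) (f : ℝ → ℝ),
      Function.Periodic f 1 → eVariationOn f (Set.Icc 0 1) ≤ ENNReal.ofReal V →
      ({n : ℕ | 1 ≤ n ∧ n ≤ N ∧ ∀ i < B,
        |d (n + i) - f (((n + i : ℕ) : ℝ) * α)| < ε}.ncard : ℝ) ≤ η * N := by
  classical
  have e2 : ∀ n, d n = Pool.Agent.X112.GS.inc Pool.Agent.X112.GS.yy n := fun n => rfl
  simp only [e2]
  obtain ⟨B, ε, hε, h⟩ := Pool.Agent.X112.GS.qpw Pool.Agent.X112.GS.anti_yy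
    Pool.Agent.X112.GS.lln_yy Pool.Agent.X112.GS.tight_yy Pool.Agent.X112.GS.conc_yy V hV η hη
  refine ⟨B, ε, hε, ?_⟩
  filter_upwards [h] with N hN α f hper hbv
  obtain ⟨v, hv⟩ := Pool.Agent.X112.GS.quasi_of_bv hper hV hbv
  rw [Pool.Agent.X112.GS.nc]
  refine le_trans (le_of_eq ?_) (hN α f v hv)
  congr!

end Pool.Agent.Results.MP_f0209c_nt.RotationCodings
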