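import Pool.Agent.X112.GS.Fin
import Pool.Agent.X112.GS.Nc

/-!
The blocks of `L` consecutive normalised spacings between zeros of zeta cannot be described by `L`
patterns, for any `L`, and on the Alternative Hypothesis the sequence of half-integers next to the
spacings has at least `L + 1` words of length `L`, for every `L ≥ 1` and in a strong sense.
Unconditional.

Idea of the proof.  By the theorem of Morse and Hedlund a sequence over a finite alphabet that has at
most `L` factors of length `L` is periodic.  An approximate and local version: if the blocks of `L`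
spacings are within `ε` of one of `L` vectors for all but `ε N` of the places, one may choose a scale
at which the clusters of nearby values of the spacings are well separated; on long blocks without
exception the sequence of clusters has at most `L` factors of length `L`, hence is periodic with a
bounded period, and so the spacings are periodic up to small errors.  This is impossible, because by
the central limit theorem (Selberg, Fujii) the sums of `r` consecutive spacings deviate from `r` by an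
amount of order `√(log r)` for most places.
-/

set_option autoImplicit false

open Filter

namespace Pool.Agent.Results.MP_f0209c_nt.WordsOfEveryLength

/-- multiplicity of `s` as a zero of the Riemann zeta function (order of vanishing at `s`) -/
noncomputable def zmult (s : ℂ) : ℕ := analyticOrderNatAt riemannZeta s

/-- the number of nontrivial zeros of `ζ` with ordinate in `(0, t]`, with multiplicity -/
noncomputable def NZ (t : ℝ) : ℕ :=
  ∑ᶠ s ∈ {s : ℂ | riemannZeta s = 0 ∧ 0 < s.re ∧ s.re < 1 ∧ 0 < s.im ∧ s.im ≤ t}, zmult s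

/-- for `n ≥ 1`: the `n`-th positive ordinate `γ n` of a nontrivial zero of `ζ`, the ordinates being
listed in nondecreasing order and repeated according to multiplicity -/
noncomputable def γ (n : ℕ) : ℝ := sInf {t : ℝ | n ≤ NZ t}

/-- the normalised spacings `d_n = (γ_{n+1} log γ_{n+1} - γ_n log γ_n) / 2π` -/
noncomputable def d (n : ℕ) : ℝ :=
  γ (n + 1) * Real.log (γ (n + 1)) / (2 * Real.pi) - γ n * Real.log (γ n) / (2 * Real.pi)

/-- Unconditionally, with `γ n` the ordinates of all the nontrivial zeros in the upper half-plane, for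
every `L ≥ 1`:

(1) there is `ε > 0` such that for all large `N` and every choice of `L` vectors `v 0, …, v (L-1)` of
length `L`, at least `ε N` of the `n ≤ N` are such that the block `(d n, …, d (n + L - 1))` is at
sup-distance at least `ε` from each of the `L` vectors;

(2) if the spacings approach the set of the half-integers (in particular on AH), there is `c > 0` such
that for all large `N` and every choice of at most `L` words of length `L`, at least `c N` of the
`n ≤ N` are such that the word formed by the half-integers next to `d n, …, d (n + L - 1)` is not among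
the chosen words. -/
theorem result (L : ℕ) (hL : 1 ≤ L) :
    (∃ ε : ℝ, 0 < ε ∧ ∀ᶠ N : ℕ in atTop, ∀ v : ℕ → ℕ → ℝ,
      ε * N ≤ ({n : ℕ | 1 ≤ n ∧ n ≤ N ∧ ∀ j < L, ∃ i < L, ε ≤ |d (n + i) - v j i|}.ncard : ℝ)) ∧
    ((∀ ε : ℝ, 0 < ε → ∀ᶠ j : ℕ in atTop, ∃ m : ℕ, |d j - m / 2| < ε) →
      ∃ c : ℝ, 0 < c ∧ ∀ᶠ N : ℕ in atTop, ∀ W : Finset (ℕ → ℕ), W.card ≤ L →
        c * N ≤ ({n : ℕ | 1 ≤ n ∧ n ≤ N ∧ ∀ w ∈ W, ∃ i < L,
          1 / 4 ≤ |d (n + i) - (w i : ℝ) / 2|}.ncard : ℝ)) := by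
  classical
  have e2 : ∀ n, d n = Pool.Agent.X112.GS.inc Pool.Agent.X112.GS.yy n := fun n => rfl
  have h1 : ∃ ε : ℝ, 0 < ε ∧ ∀ᶠ N : ℕ in atTop, ∀ v : ℕ → ℕ → ℝ,
      ε * N ≤ ({n : ℕ | 1 ≤ n ∧ n ≤ N ∧ ∀ j < L, ∃ i < L, ε ≤ |d (n + i) - v j i|}.ncard : ℝ) := by
    simp only [e2]
    obtain ⟨ε, hε, h⟩ := Pool.Agent.X112.GS.pats L hL
    refine ⟨ε, hε, ?_⟩
    filter_upwards [h] with N hN v
    rw [Pool.Agent.X112.GS.nc]
    exact hN v
  refine ⟨h1, fun hAH => ?_⟩
  obtain ⟨ε, hε, h⟩ := h1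
  obtain ⟨n1, hn1⟩ := (hAH (min ε (1 / 8)) (lt_min hε (by norm_num))).exists_forall_of_atTop
  have hround : ∀ j, n1 ≤ j → ∀ w : ℕ, |d j - (w : ℝ) / 2| < 1 / 4 → |d j - (w : ℝ) / 2| < ε := by
    intro j hj w hw
    obtain ⟨m, hm⟩ := hn1 j hj
    have h1 : |d j - m / 2| < 1 / 8 := lt_of_lt_of_le hm (min_le_right _ _)
    have h2 : |d j - m / 2| < ε := lt_of_lt_of_le hm (min_le_left _ _)
    have h3 : w = m := by
      have a1 := abs_lt.1 hw
      have a2 := abs_lt.1 h1
      have h4 : (w : ℝ) < m + 1 := by linarith [a1.1, a1.2, a2.1, a2.2]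
      have h5 : (m : ℝ) < w + 1 := by linarith [a1.1, a1.2, a2.1, a2.2]
      have h6 : w < m + 1 := by exact_mod_cast h4
      have h7 : m < w + 1 := by exact_mod_cast h5
      omega
    rw [h3]
    exact h2
  refine ⟨ε / 2, by positivity, ?_⟩
  have hbig : ∀ᶠ N : ℕ in atTop, (n1 : ℝ) ≤ ε / 2 * N :=
    (tendsto_natCast_atTop_atTop.const_mul_atTop (by positivity : (0 : ℝ) < ε / 2)).eventually_ge_atTop _
  filter_upwards [h, hbig] with N hN hb W hW
  obtain ⟨f, hf⟩ : ∃ f : ℕ → (ℕ → ℕ), ∀ w ∈ W, ∃ j < L, f j = w := by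
    refine ⟨fun j => if h : j < W.card then (W.equivFin.symm ⟨j, h⟩ : ℕ → ℕ) else fun _ => 0, fun w hw => ?_⟩
    refine ⟨(W.equivFin ⟨w, hw⟩ : ℕ), lt_of_lt_of_le (W.equivFin ⟨w, hw⟩).2 hW, ?_⟩
    dsimp only
    rw [dif_pos (W.equivFin ⟨w, hw⟩).2]
    simp
  have h2 := hN (fun j i => (f j i : ℝ) / 2)
  have hfin : ({n : ℕ | 1 ≤ n ∧ n ≤ N ∧ ∀ w ∈ W, ∃ i < L, 1 / 4 ≤ |d (n + i) - (w i : ℝ) / 2|} ∪ Set.Iio n1).Finite :=
    ((Set.finite_Icc 1 N).subset fun n hn => ⟨hn.1, hn.2.1⟩).union (Set.finite_Iio n1)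
  have hsub : {n : ℕ | 1 ≤ n ∧ n ≤ N ∧ ∀ j < L, ∃ i < L, ε ≤ |d (n + i) - (f j i : ℝ) / 2|} ⊆
      {n : ℕ | 1 ≤ n ∧ n ≤ N ∧ ∀ w ∈ W, ∃ i < L, 1 / 4 ≤ |d (n + i) - (w i : ℝ) / 2|} ∪ Set.Iio n1 := by
    rintro n ⟨hn, hnN, hall⟩
    rcases lt_or_ge n n1 with hlt | hge
    · right
      exact hlt
    · left
      refine ⟨hn, hnN, fun w hw => ?_⟩
      obtain ⟨j, hj, hfj⟩ := hf w hw
      obtain ⟨i, hi, hε'⟩ := hall j hj
      refine ⟨i, hi, ?_⟩
      by_contra hc
      push Not at hc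
      have h3 := hround (n + i) (by omega) (w i) hc
      rw [hfj] at hε'
      linarith
  have h3 := (Set.ncard_le_ncard hsub hfin).trans (Set.ncard_union_le _ _)
  have h4 : (Set.Iio n1).ncard = n1 := by
    rw [← Finset.coe_Iio, Set.ncard_coe_finset, Nat.card_Iio]
  rw [h4] at h3
  have h5 : (({n : ℕ | 1 ≤ n ∧ n ≤ N ∧ ∀ j < L, ∃ i < L, ε ≤ |d (n + i) - (f j i : ℝ) / 2|}.ncard : ℕ) : ℝ) ≤
      ({n : ℕ | 1 ≤ n ∧ n ≤ N ∧ ∀ w ∈ W, ∃ i < L, 1 / 4 ≤ |d (n + i) - (w i : ℝ) / 2|}.ncard : ℝ) + n1 := by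
    exact_mod_cast h3
  linarith

end Pool.Agent.Results.MP_f0209c_nt.WordsOfEveryLength
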